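import Mathlib

/-!
# Elastic inclusions in the unit ball: definitions
-/

open MeasureTheory Metric Set

namespace Pool.Agent.X297.EI

/-- The Euclidean space of dimension `d`. -/
abbrev E (d : ℕ) : Type := EuclideanSpace ℝ (Fin d)

variable {d : ℕ}

/-- The partial derivative of the `i`-th component of `u` with respect to the `j`-th coordinate. -/
noncomputable def pd (u : E d → E d) (i j : Fin d) (x : E d) : ℝ :=
  fderiv ℝ (fun y => u y i) x (EuclideanSpace.single j 1)

/-- The divergence of `u`. -/
noncomputable def dv (u : E d → E d) (x : E d) : ℝ := ∑ i, pd u i i x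

/-- The `i`-th component of `m Δ u + (l + m) ∇ (div u)` at `x`. -/
noncomputable def lame (l m : ℝ) (u : E d → E d) (x : E d) (i : Fin d) : ℝ :=
  m * ∑ j, fderiv ℝ (pd u i j) x (EuclideanSpace.single j 1) +
    (l + m) * fderiv ℝ (dv u) x (EuclideanSpace.single i 1)

/-- The `i`-th component of the conormal derivative `l (div u) N + m (∇ u + ∇ uᵀ) N` at `x`. -/
noncomputable def conormal (l m : ℝ) (u : E d → E d) (N x : E d) (i : Fin d) : ℝ :=
  l * dv u x * N i + m * ∑ j, (pd u i j x + pd u j i x) * N j

/-- The rigid displacements `x ↦ A x + b` with `A` antisymmetric. -/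
def IsRigid (ψ : E d → E d) : Prop :=
  ∃ (A : Matrix (Fin d) (Fin d) ℝ) (b : E d), A.transpose = -A ∧
    ∀ x i, ψ x i = ∑ j, A i j * x j + b i

/-- The field `g` on the unit sphere is square integrable for the surface measure and orthogonal to
the rigid displacements. -/
def InL2Psi (g : E d → E d) : Prop :=
  MemLp (fun x : sphere (0 : E d) 1 => g x) 2 (volume : Measure (E d)).toSphere ∧
    ∀ ψ, IsRigid ψ →
      ∫ x : sphere (0 : E d) 1, inner ℝ (g x) (ψ x) ∂(volume : Measure (E d)).toSphere = 0

/-- `u` is a solution of the transmission problem in the unit ball `Ω`, with the inclusion `D` the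
open ball with the centre `c` and the radius `r`, the constants `l, m` outside and `l', m'` inside
the inclusion and the Neumann datum `g`: `u` is equal to `v` outside of `D` and to `w` on the closure
of `D`, where `v` and `w` are twice continuously differentiable, so that `v` and `w` agree on the
boundary of `D`, they satisfy the equations outside and inside of `D`, their conormal derivatives
agree on the boundary of `D`, the conormal derivative of `v` on the boundary of `Ω` is `g`, and `u`
is orthogonal to the rigid displacements on the boundary of `Ω`. -/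
structure IsSolution (l m l' m' : ℝ) (c : E d) (r : ℝ) (g u : E d → E d) : Prop where
  exists_sides : ∃ v w : E d → E d, ContDiff ℝ 2 v ∧ ContDiff ℝ 2 w ∧
    (∀ x ∈ closedBall (0 : E d) 1 \ ball c r, u x = v x) ∧ (∀ x ∈ closedBall c r, u x = w x) ∧
    (∀ x ∈ ball (0 : E d) 1 \ closedBall c r, ∀ i, lame l m v x i = 0) ∧
    (∀ x ∈ ball c r, ∀ i, lame l' m' w x i = 0) ∧
    (∀ x ∈ sphere c r, ∀ i,
      conormal l' m' w (r⁻¹ • (x - c)) x i = conormal l m v (r⁻¹ • (x - c)) x i) ∧
    ∀ x ∈ sphere (0 : E d) 1, ∀ i, conormal l m v x x i = g x i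
  inL2Psi : InL2Psi u

end Pool.Agent.X297.EI
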