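import Pool.Agent.X297.EI.Defs

/-!
# Elastic inclusions in the unit ball: a measurement which all balls have in common
-/

open MeasureTheory Metric Set

open scoped Pointwise

namespace Pool.Agent.X297.EI

variable {d : ℕ}

lemma norm_S (u : sphere (0 : E d) 1) : ‖u.1‖ = 1 := by
  have := u.2
  rwa [mem_sphere_zero_iff_norm] at this

/-- The action of a linear isometry on the sphere. -/
noncomputable def act (U : E d ≃ₗᵢ[ℝ] E d) (u : sphere (0 : E d) 1) : sphere (0 : E d) 1 :=
  ⟨U u.1, by rw [mem_sphere_zero_iff_norm, U.norm_map, norm_S]⟩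

@[simp] lemma act_val (U : E d ≃ₗᵢ[ℝ] E d) (u : sphere (0 : E d) 1) : (act U u).1 = U u.1 := rfl

lemma continuous_act (U : E d ≃ₗᵢ[ℝ] E d) : Continuous (act U) :=
  (U.continuous.comp continuous_subtype_val).subtype_mk _

lemma toSphere_act (U : E d ≃ₗᵢ[ℝ] E d) :
    Measure.map (act U) (volume : Measure (E d)).toSphere =
      (volume : Measure (E d)).toSphere := by
  ext s hs
  rw [Measure.map_apply (continuous_act U).measurable hs, Measure.toSphere_apply' _ hs,
    Measure.toSphere_apply' _ ((continuous_act U).measurable hs)]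
  congr 1
  have h : Ioo (0 : ℝ) 1 • Subtype.val '' (act U ⁻¹' s) =
      U ⁻¹' (Ioo (0 : ℝ) 1 • Subtype.val '' s) := by
    ext x
    simp only [mem_preimage, mem_smul, mem_image, Subtype.exists, exists_and_right, exists_eq_right]
    constructor
    · rintro ⟨r, hr, y, ⟨hy, hys⟩, rfl⟩
      refine ⟨r, hr, U y, ⟨(act U ⟨y, hy⟩).2, hys⟩, ?_⟩
      rw [map_smul]
    · rintro ⟨r, hr, y, ⟨hy, hys⟩, hxy⟩
      refine ⟨r, hr, U.symm y, ⟨?_, ?_⟩, ?_⟩
      · rw [mem_sphere_zero_iff_norm, U.symm.norm_map]
        rwa [mem_sphere_zero_iff_norm] at hy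
      · have : act U ⟨U.symm y, by
            rw [mem_sphere_zero_iff_norm, U.symm.norm_map]
            rwa [mem_sphere_zero_iff_norm] at hy⟩ = ⟨y, hy⟩ := by
          apply Subtype.ext
          simp [act]
        simpa only [this] using hys
      · apply U.injective
        rw [← hxy, map_smul, U.apply_symm_apply]
  rw [h]
  exact U.measurePreserving.measure_preimage_equiv (f := U.toHomeomorph.toMeasurableEquiv) _

lemma measurableEmbedding_act (U : E d ≃ₗᵢ[ℝ] E d) : MeasurableEmbedding (act U) := by
  have h : Topology.IsClosedEmbedding (act U) := by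
    apply Continuous.isClosedEmbedding (continuous_act U)
    intro u v huv
    apply Subtype.ext
    exact U.injective (congrArg Subtype.val huv)
  exact h.measurableEmbedding

lemma integral_act (U : E d ≃ₗᵢ[ℝ] E d) (F : sphere (0 : E d) 1 → ℝ) :
    ∫ u, F (act U u) ∂(volume : Measure (E d)).toSphere =
      ∫ u, F u ∂(volume : Measure (E d)).toSphere :=
  (⟨(continuous_act U).measurable, toSphere_act U⟩ : MeasurePreserving (act U) _ _).integral_comp
    (measurableEmbedding_act U) F

/-- The reflection which changes the sign of the `i`-th coordinate. -/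
noncomputable def refl (i : Fin d) : E d ≃ₗᵢ[ℝ] E d :=
  LinearIsometryEquiv.piLpCongrRight 2 fun j =>
    if j = i then LinearIsometryEquiv.neg ℝ else LinearIsometryEquiv.refl ℝ ℝ

lemma refl_apply (i j : Fin d) (x : E d) : refl i x j = if j = i then -x j else x j := by
  rw [refl, LinearIsometryEquiv.piLpCongrRight_apply]
  change (if j = i then LinearIsometryEquiv.neg ℝ else LinearIsometryEquiv.refl ℝ ℝ) (x j) = _
  split_ifs <;> rfl

lemma int_odd (i : Fin d) {F : sphere (0 : E d) 1 → ℝ} (h : ∀ u, F (act (refl i) u) = -F u) :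
    ∫ u, F u ∂(volume : Measure (E d)).toSphere = 0 := by
  have h1 := integral_act (refl i) F
  simp only [h, integral_neg] at h1
  linarith

lemma int_coord (i : Fin d) :
    ∫ u : sphere (0 : E d) 1, (u : E d) i ∂(volume : Measure (E d)).toSphere = 0 := by
  apply int_odd i
  intro u
  rw [act_val, refl_apply, if_pos rfl]

lemma int_mul {i j : Fin d} (hij : i ≠ j) :
    ∫ u : sphere (0 : E d) 1, (u : E d) i * (u : E d) j ∂(volume : Measure (E d)).toSphere = 0 := by
  apply int_odd i
  intro u
  rw [act_val, refl_apply, refl_apply, if_pos rfl, if_neg (Ne.symm hij)]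
  ring

lemma integrable_cont {F : sphere (0 : E d) 1 → ℝ} (hF : Continuous F) :
    Integrable F (volume : Measure (E d)).toSphere :=
  hF.integrable_of_hasCompactSupport (HasCompactSupport.of_compactSpace F)

/-- The field `x ↦ (s i * x i)`. -/
noncomputable def fld (s : Fin d → ℝ) (x : E d) : E d := WithLp.toLp 2 fun i => s i * x i

@[simp] lemma fld_apply (s : Fin d → ℝ) (x : E d) (i : Fin d) : fld s x i = s i * x i := rfl

lemma contDiff_fld (s : Fin d → ℝ) {n : WithTop ℕ∞} : ContDiff ℝ n (fld s) := by
  rw [contDiff_euclidean]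
  intro i
  simp only [fld_apply]
  exact contDiff_const.mul (EuclideanSpace.proj (𝕜 := ℝ) i).contDiff

lemma pd_fld (s : Fin d → ℝ) (i j : Fin d) (x : E d) : pd (fld s) i j x = if i = j then s i else 0 := by
  have h : HasFDerivAt (fun y : E d => fld s y i)
      (s i • (EuclideanSpace.proj i : E d →L[ℝ] ℝ)) x :=
    (EuclideanSpace.proj i : E d →L[ℝ] ℝ).hasFDerivAt.const_smul (s i)
  rw [pd, h.fderiv]
  simp [EuclideanSpace.single_apply]

lemma dv_fld (s : Fin d → ℝ) (x : E d) : dv (fld s) x = ∑ i, s i := by
  simp only [dv, pd_fld, if_true]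

lemma lame_fld (l m : ℝ) (s : Fin d → ℝ) (x : E d) (i : Fin d) : lame l m (fld s) x i = 0 := by
  have h1 : ∀ j, pd (fld s) i j = fun _ => if i = j then s i else 0 := fun j =>
    funext fun y => pd_fld s i j y
  have h2 : dv (fld s) = fun _ => ∑ i, s i := funext fun y => dv_fld s y
  rw [lame, h2]
  simp only [h1, fderiv_fun_const, Pi.zero_apply, ContinuousLinearMap.zero_apply,
    Finset.sum_const_zero, mul_zero, add_zero]

lemma conormal_fld (l m : ℝ) {s : Fin d → ℝ} (hs : ∑ i, s i = 0) (N x : E d) (i : Fin d) :
    conormal l m (fld s) N x i = 2 * m * (s i * N i) := by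
  rw [conormal, dv_fld, hs]
  have h : ∀ j, (pd (fld s) i j x + pd (fld s) j i x) * N j = if i = j then 2 * s i * N i else 0 := by
    intro j
    rw [pd_fld, pd_fld]
    rcases eq_or_ne i j with rfl | h
    · simp only [if_true]
      ring
    · rw [if_neg h, if_neg (Ne.symm h), if_neg h]
      ring
  simp only [h, Finset.sum_ite_eq, Finset.mem_univ, if_true]
  ring

lemma inL2Psi_fld (s : Fin d → ℝ) (m : ℝ) : InL2Psi fun x => m • fld s x := by
  constructor
  · have hc : Continuous fun x : sphere (0 : E d) 1 => m • fld s (x : E d) :=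
      ((contDiff_fld s (n := 0)).continuous.comp continuous_subtype_val).const_smul m
    obtain ⟨C, hC⟩ := isCompact_univ.exists_bound_of_continuousOn hc.continuousOn
    exact MemLp.of_bound hc.aestronglyMeasurable C (ae_of_all _ fun x => hC x (mem_univ x))
  · rintro ψ ⟨A, b, hA, hψ⟩
    have hA' : ∀ i, A i i = 0 := by
      intro i
      have h := congrFun (congrFun hA i) i
      rw [Matrix.transpose_apply, Matrix.neg_apply] at h
      linarith
    have h1 : ∀ x : sphere (0 : E d) 1, inner ℝ (m • fld s (x : E d)) (ψ x) =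
        ∑ i, ((∑ j, (m * s i * A i j) * ((x : E d) i * (x : E d) j)) +
          (m * s i * b i) * (x : E d) i) := by
      intro x
      rw [PiLp.inner_apply]
      apply Finset.sum_congr rfl
      intro i _
      rw [hψ]
      change (∑ j, A i j * (x : E d) j + b i) * (m * (s i * (x : E d) i)) = _
      rw [add_mul, Finset.sum_mul]
      congr 1
      · apply Finset.sum_congr rfl
        intro j _
        ring
      · ring
    simp only [h1]
    have hc : ∀ i : Fin d, Continuous fun x : sphere (0 : E d) 1 => (x : E d) i := fun i =>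
      (EuclideanSpace.proj (𝕜 := ℝ) i).continuous.comp continuous_subtype_val
    rw [integral_finsetSum _ fun i _ => integrable_cont (by
      refine (continuous_finsetSum _ fun j _ => ?_).add (continuous_const.mul (hc i))
      exact continuous_const.mul ((hc i).mul (hc j)))]
    apply Finset.sum_eq_zero
    intro i _
    have i1 : ∀ j, Integrable (fun x : sphere (0 : E d) 1 =>
        (m * s i * A i j) * ((x : E d) i * (x : E d) j)) (volume : Measure (E d)).toSphere :=
      fun j => integrable_cont (continuous_const.mul ((hc i).mul (hc j)))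
    have i2 : Integrable (fun x : sphere (0 : E d) 1 =>
        ∑ j, (m * s i * A i j) * ((x : E d) i * (x : E d) j))
        (volume : Measure (E d)).toSphere := integrable_finsetSum _ fun j _ => i1 j
    have i3 : Integrable (fun x : sphere (0 : E d) 1 => (m * s i * b i) * (x : E d) i)
        (volume : Measure (E d)).toSphere := integrable_cont (continuous_const.mul (hc i))
    rw [integral_add i2 i3, integral_const_mul, int_coord, mul_zero, add_zero,
      integral_finsetSum _ fun j _ => i1 j]
    apply Finset.sum_eq_zero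
    intro j _
    rw [integral_const_mul]
    rcases eq_or_ne i j with rfl | h
    · rw [hA', mul_zero, zero_mul]
    · rw [int_mul h, mul_zero]

/-- **A measurement which all balls have in common.** -/
theorem main (hd : 2 ≤ d) (l m l' : ℝ) (hm : 0 < m) :
    ∃ g u : E d → E d, InL2Psi g ∧
      ¬ (∀ᵐ x : sphere (0 : E d) 1 ∂(volume : Measure (E d)).toSphere, g x = 0) ∧
      ∀ (c : E d) (r : ℝ), 0 < r → closedBall c r ⊆ ball (0 : E d) 1 →
        IsSolution l m l' m c r g u := by
  let a : Fin d := ⟨0, by omega⟩
  let b : Fin d := ⟨1, by omega⟩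
  have hab : a ≠ b := by
    intro h
    have := congrArg Fin.val h
    simp [a, b] at this
  let s : Fin d → ℝ := fun i => (if i = a then 1 else 0) - if i = b then 1 else 0
  have hs : ∑ i, s i = 0 := by
    simp only [s, Finset.sum_sub_distrib, Finset.sum_ite_eq', Finset.mem_univ, if_true, sub_self]
  refine ⟨fun x => (2 * m) • fld s x, fld s, inL2Psi_fld s (2 * m), ?_, ?_⟩
  · intro h
    have hc : Continuous fun x : sphere (0 : E d) 1 => (2 * m) • fld s (x : E d) :=
      ((contDiff_fld s (n := 0)).continuous.comp continuous_subtype_val).const_smul (2 * m)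
    have : Nonempty (Fin d) := ⟨a⟩
    have h1 : (fun x : sphere (0 : E d) 1 => (2 * m) • fld s (x : E d)) = fun _ => 0 :=
      Continuous.ae_eq_iff_eq (volume : Measure (E d)).toSphere hc continuous_const |>.1 h
    have h2 := congrFun h1 ⟨EuclideanSpace.single a 1, by simp⟩
    have h3 := congrArg (fun v : E d => v a) h2
    simp [s, hab] at h3
    exact hm.ne' h3
  · intro c r hr _
    refine ⟨⟨fld s, fld s, contDiff_fld s, contDiff_fld s, fun _ _ => rfl, fun _ _ => rfl,
      fun x _ i => lame_fld l m s x i, fun x _ i => lame_fld l' m s x i, fun x _ i => ?_,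
      fun x _ i => ?_⟩, ?_⟩
    · rw [conormal_fld l' m hs, conormal_fld l m hs]
    · rw [conormal_fld l m hs]
      rfl
    · have := inL2Psi_fld s 1
      simpa only [one_smul] using this

end Pool.Agent.X297.EI
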